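import Pool.Agent.Helper92.Ru.GoalsH

/-!
# Packet H5 of MP_d1d051_nt: `SubstBound`
-/

set_option autoImplicit false

open NumberField MvPolynomial

namespace Pool.Agent.Helper80.Ru

open Pool.Agent.Helper92.Ru

variable {k : Type} [Field k] [NumberField k] {T : Finset (FinitePlace k)}
variable {m : ℕ} {ι : Type} [Fintype ι] [DecidableEq ι]

/-- the monomial weight -/
noncomputable def GG (g : Fin m → ι → ℝ) (K : Fin m × ι →₀ ℕ) : ℝ :=
  ∏ h, ∏ i, g h i ^ K (h, i)

theorem GG_nonneg {g : Fin m → ι → ℝ} (hg : ∀ h i, 0 ≤ g h i) (K : Fin m × ι →₀ ℕ) :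
    0 ≤ GG g K :=
  Finset.prod_nonneg fun _ _ => Finset.prod_nonneg fun _ _ => pow_nonneg (hg _ _) _

theorem GG_add (g : Fin m → ι → ℝ) (K L : Fin m × ι →₀ ℕ) :
    GG g (K + L) = GG g K * GG g L := by
  unfold GG
  rw [← Finset.prod_mul_distrib]
  refine Finset.prod_congr rfl fun h _ => ?_
  rw [← Finset.prod_mul_distrib]
  refine Finset.prod_congr rfl fun i _ => ?_
  rw [Finsupp.add_apply, pow_add]

theorem GG_single (g : Fin m → ι → ℝ) (h : Fin m) (i : ι) :
    GG g (Finsupp.single (h, i) 1) = g h i := by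
  unfold GG
  rw [Finset.prod_eq_single h, Finset.prod_eq_single i]
  · simp
  · intro i' _ hi'
    rw [Finsupp.single_apply, if_neg (by
      intro hh
      exact hi' (Prod.mk.inj hh).2.symm)]
    simp
  · intro hh; exact absurd (Finset.mem_univ _) hh
  · intro h' _ hh'
    apply Finset.prod_eq_one
    intro i' _
    rw [Finsupp.single_apply, if_neg (by
      intro hh
      exact hh' (Prod.mk.inj hh).1.symm)]
    simp
  · intro hh; exact absurd (Finset.mem_univ _) hh

theorem step (v : SP k T) (M : Fin m → Matrix ι ι k) (b g : Fin m → ι → ℝ)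
    (hb : ∀ h i, 0 ≤ b h i) (hg : ∀ h i, 0 ≤ g h i)
    (hM : ∀ h i j, nS v (M h i j) ≤ b h i * g h j) (p : Fin m × ι)
    (f : MvPolynomial (Fin m × ι) k) (β : ℝ) (hβ : 0 ≤ β)
    (hf : ∀ K, nS v (coeff K f) ≤ β * GG g K) (K : Fin m × ι →₀ ℕ) :
    nS v (coeff K ((∑ j, C (M p.1 p.2 j) * X (p.1, j)) * f)) ≤
      ((Fintype.card ι : ℝ) ^ 2 * b p.1 p.2 * β) * GG g K := by
  rw [Finset.sum_mul, coeff_sum]
  have h1 : ∀ j ∈ (Finset.univ : Finset ι),
      nS v (coeff K (C (M p.1 p.2 j) * X (p.1, j) * f)) ≤ b p.1 p.2 * β * GG g K := by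
    intro j _
    have e1 : C (M p.1 p.2 j) * X (p.1, j) * f = C (M p.1 p.2 j) * (f * X (p.1, j)) := by ring
    rw [e1, coeff_C_mul, nS_mul, coeff_mul_X']
    split_ifs with hK
    · have hK' : Finsupp.single (p.1, j) 1 ≤ K := by
        rw [Finsupp.single_le_iff]
        exact Nat.one_le_iff_ne_zero.2 (Finsupp.mem_support_iff.1 hK)
      have e2 : GG g K = GG g (K - Finsupp.single (p.1, j) 1) * g p.1 j := by
        conv_lhs => rw [← tsub_add_cancel_of_le hK', GG_add, GG_single]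
      rw [e2]
      calc nS v (M p.1 p.2 j) * nS v (coeff (K - Finsupp.single (p.1, j) 1) f)
          ≤ (b p.1 p.2 * g p.1 j) * (β * GG g (K - Finsupp.single (p.1, j) 1)) :=
            mul_le_mul (hM _ _ _) (hf _) (nS_nonneg _ _) (mul_nonneg (hb _ _) (hg _ _))
        _ = _ := by ring
    · rw [nS_zero, mul_zero]
      exact mul_nonneg (mul_nonneg (hb _ _) hβ) (GG_nonneg hg K)
  refine (nS_sum_le v Finset.univ _ _ h1).trans (le_of_eq ?_)
  rw [Finset.card_univ]
  ring

theorem stepPow (v : SP k T) (M : Fin m → Matrix ι ι k) (b g : Fin m → ι → ℝ)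
    (hb : ∀ h i, 0 ≤ b h i) (hg : ∀ h i, 0 ≤ g h i)
    (hM : ∀ h i j, nS v (M h i j) ≤ b h i * g h j) (p : Fin m × ι) (n : ℕ)
    (f : MvPolynomial (Fin m × ι) k) (β : ℝ) (hβ : 0 ≤ β)
    (hf : ∀ K, nS v (coeff K f) ≤ β * GG g K) (K : Fin m × ι →₀ ℕ) :
    nS v (coeff K ((∑ j, C (M p.1 p.2 j) * X (p.1, j)) ^ n * f)) ≤
      (((Fintype.card ι : ℝ) ^ 2 * b p.1 p.2) ^ n * β) * GG g K := by
  induction n generalizing K with
  | zero => simpa using hf K
  | succ n ih =>
    rw [pow_succ', mul_assoc]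
    refine (step v M b g hb hg hM p _ (((Fintype.card ι : ℝ) ^ 2 * b p.1 p.2) ^ n * β) ?_ ih
      K).trans (le_of_eq ?_)
    · exact mul_nonneg (pow_nonneg (mul_nonneg (by positivity) (hb _ _)) _) hβ
    · ring

theorem stepProd (v : SP k T) (M : Fin m → Matrix ι ι k) (b g : Fin m → ι → ℝ)
    (hb : ∀ h i, 0 ≤ b h i) (hg : ∀ h i, 0 ≤ g h i)
    (hM : ∀ h i j, nS v (M h i j) ≤ b h i * g h j) (J : Fin m × ι →₀ ℕ)
    (s : Finset (Fin m × ι)) (K : Fin m × ι →₀ ℕ) :
    nS v (coeff K (∏ p ∈ s, (∑ j, C (M p.1 p.2 j) * X (p.1, j)) ^ J p)) ≤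
      (∏ p ∈ s, ((Fintype.card ι : ℝ) ^ 2 * b p.1 p.2) ^ J p) * GG g K := by
  induction s using Finset.induction_on generalizing K with
  | empty =>
    simp only [Finset.prod_empty, one_mul]
    rw [coeff_one]
    split_ifs with h
    · rw [nS_one, ← h]
      simp [GG]
    · rw [nS_zero]; exact GG_nonneg hg K
  | insert p s hp ih =>
    rw [Finset.prod_insert hp, Finset.prod_insert hp]
    exact stepPow v M b g hb hg hM p (J p) _ _
      (Finset.prod_nonneg fun _ _ => pow_nonneg (mul_nonneg (by positivity) (hb _ _)) _) ih K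

theorem card_support_le (r : Fin m → ℕ) (f : MvPolynomial (Fin m × ι) k) (hf : MHr r f) :
    f.support.card ≤ 2 ^ (Fintype.card ι * ∑ h, r h) := by
  have h1 : f.support.card ≤
      (Fintype.piFinset (fun p : Fin m × ι => Finset.range (r p.1 + 1))).card := by
    apply Finset.card_le_card_of_injOn (fun J => (fun p => J p))
    · intro J hJ
      simp only [Finset.mem_coe] at hJ ⊢
      rw [Fintype.mem_piFinset]
      rintro ⟨h, i⟩
      rw [Finset.mem_range, Nat.lt_succ_iff, ← hf J hJ h]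
      exact Finset.single_le_sum (f := fun i => J (h, i)) (fun _ _ => Nat.zero_le _)
        (Finset.mem_univ i)
    · intro J _ J' _ hJJ
      exact Finsupp.ext fun p => congrFun hJJ p
  refine h1.trans ?_
  rw [Fintype.card_piFinset]
  calc ∏ p : Fin m × ι, (Finset.range (r p.1 + 1)).card
      ≤ ∏ p : Fin m × ι, 2 ^ (r p.1) := by
        apply Finset.prod_le_prod'
        intro p _
        rw [Finset.card_range]
        exact Nat.lt_two_pow_self
    _ = 2 ^ (Fintype.card ι * ∑ h, r h) := by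
        rw [Finset.prod_pow_eq_pow_sum, Fintype.sum_prod_type]
        simp [Finset.mul_sum]

theorem substBound : SubstBound := by
  intro k _ _ T v m ι _ _ _ r f M b g β hf hb hg hβ hM hJ K
  have hN : (1 : ℝ) ≤ (Fintype.card ι : ℝ) := by exact_mod_cast Fintype.card_pos
  -- expand
  have e0 : subM M f = ∑ J ∈ f.support, C (coeff J f) *
      ∏ p, (∑ j, C (M p.1 p.2 j) * X (p.1, j)) ^ J p := by
    conv_lhs => rw [f.as_sum]
    rw [map_sum]
    refine Finset.sum_congr rfl fun J _ => ?_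
    unfold subM
    rw [aeval_monomial]
    congr 1
    rw [Finsupp.prod_fintype]
    intro p; simp
  have hG : 0 ≤ GG g K := GG_nonneg hg K
  have hterm : ∀ J ∈ f.support, nS v (coeff K (C (coeff J f) *
      ∏ p, (∑ j, C (M p.1 p.2 j) * X (p.1, j)) ^ J p)) ≤
        (Fintype.card ι : ℝ) ^ (2 * ∑ h, r h) * β * GG g K := by
    intro J hJs
    rw [coeff_C_mul, nS_mul]
    have h1 := stepProd v M b g hb hg hM J Finset.univ K
    have h2 : (∏ p : Fin m × ι, ((Fintype.card ι : ℝ) ^ 2 * b p.1 p.2) ^ J p) =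
        (Fintype.card ι : ℝ) ^ (2 * ∑ h, r h) * ∏ h, ∏ i, b h i ^ J (h, i) := by
      rw [Fintype.prod_prod_type]
      simp only [mul_pow]
      simp only [Finset.prod_mul_distrib]
      congr 1
      simp only [← pow_mul]
      simp only [Finset.prod_pow_eq_pow_sum, ← Finset.mul_sum]
      congr 2
      exact Finset.sum_congr rfl fun h _ => hf J hJs h
    rw [h2] at h1
    calc nS v (coeff J f) * nS v (coeff K (∏ p, (∑ j, C (M p.1 p.2 j) * X (p.1, j)) ^ J p))
        ≤ nS v (coeff J f) * ((Fintype.card ι : ℝ) ^ (2 * ∑ h, r h) *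
            (∏ h, ∏ i, b h i ^ J (h, i)) * GG g K) :=
          mul_le_mul_of_nonneg_left h1 (nS_nonneg _ _)
      _ = (Fintype.card ι : ℝ) ^ (2 * ∑ h, r h) *
            (nS v (coeff J f) * ∏ h, ∏ i, b h i ^ J (h, i)) * GG g K := by ring
      _ ≤ (Fintype.card ι : ℝ) ^ (2 * ∑ h, r h) * β * GG g K := by
          apply mul_le_mul_of_nonneg_right _ hG
          exact mul_le_mul_of_nonneg_left (hJ J hJs) (by positivity)
  rw [e0, coeff_sum]
  refine (nS_sum_le v f.support _ _ hterm).trans ?_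
  have hc : ((f.support.card : ℕ) : ℝ) ≤ 2 ^ (Fintype.card ι * ∑ h, r h) := by
    exact_mod_cast card_support_le r f hf
  have hc2 : ((f.support.card : ℕ) : ℝ) ^ 2 ≤ (2 ^ (Fintype.card ι * ∑ h, r h)) ^ 2 :=
    pow_le_pow_left₀ (by positivity) hc 2
  have hnn : 0 ≤ (Fintype.card ι : ℝ) ^ (2 * ∑ h, r h) * β * GG g K := by positivity
  refine (mul_le_mul_of_nonneg_right hc2 hnn).trans (le_of_eq ?_)
  have e1 : ((2 : ℝ) ^ (Fintype.card ι * ∑ h, r h)) ^ 2 =
      ((2 : ℝ) ^ Fintype.card ι) ^ (2 * ∑ h, r h) := by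
    rw [← pow_mul, ← pow_mul]
    congr 1; ring
  rw [e1, mul_pow]
  unfold GG
  ring

end Pool.Agent.Helper80.Ru
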